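import Pool.Agent.Work.MP_65e34f.Defs
import Pool.Agent.Work.MP_65e34f_helper28.Asm
import Pool.Agent.Work.MP_65e34f_h38.GapAll

/-!
# MP_65e34f_al : the gap law and the good pairs `(Γ, S)` with `S` a set of groups `PSL_2(q)`

The definitions used in the statement are in `Pool/Agent/Work/MP_65e34f/Defs.lean`
(and `wdO`, `wdN` in `Pool/Agent/Work/MP_65e34f/Interface.lean`).

* `FuchsO g d s m`, `FuchsN g d s m` : the groups given by the two presentations of the question;
* `PP Γ G` : the probability `P_Γ(G)`;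
* `Good Γ G` : the pair `(Γ, (G_i)_i)` is good;
* `Crit K W ms` : the criterion, read off from the periods that are not coprime to `q (q² - 1)`.

For oriented groups `Γ` of genus at most one, and for non-oriented groups `Γ` of genus one or two, with
any number of periods and of parabolic generators, there is a constant `C` such that for all finite
fields `K`, `q = |K|`: `P_Γ(PSL_2(K)) ≥ 1 - C q^(-1/4)` if the criterion holds for `K`, and
`P_Γ(PSL_2(K)) ≤ 1 - 1/C` otherwise.  So for a family of pairwise non-isomorphic groups `PSL_2(K_i)`,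
`K_i` finite fields with at least four elements, the pair `(Γ, (G_i))` is good iff the criterion holds
for all but finitely many `i`.
-/

namespace Pool.Agent.Results.MP_65e34f_al.RankOneGoodPairs

open Pool.FG

theorem result :
    (∀ (g d s : ℕ) (m : Fin d → ℕ), (∀ i, 2 ≤ m i) → g ≤ 1 →
      (∃ C : ℝ, 1 ≤ C ∧ ∀ (K : Type) [Field K] [Finite K],
        (Crit K (wdO g s) (List.ofFn m) →
          1 - C * (Nat.card K : ℝ) ^ (-(1 / 4) : ℝ) ≤ PP (FuchsO g d s m) (PSL K)) ∧
        (¬ Crit K (wdO g s) (List.ofFn m) → PP (FuchsO g d s m) (PSL K) ≤ 1 - 1 / C)) ∧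
      ∀ (ι : Type) (G : ι → Type) [∀ i, Group (G i)]
        (K : ι → Type) [∀ i, Field (K i)] [∀ i, Finite (K i)],
        (∀ i, 4 ≤ Nat.card (K i)) → (∀ i, Nonempty (G i ≃* PSL (K i))) →
        (∀ i j, i ≠ j → IsEmpty (G i ≃* G j)) →
        (Good (FuchsO g d s m) G ↔ {i | ¬ Crit (K i) (wdO g s) (List.ofFn m)}.Finite)) ∧
    (∀ (g d s : ℕ) (m : Fin d → ℕ), (∀ i, 2 ≤ m i) → 1 ≤ g → g ≤ 2 →
      (∃ C : ℝ, 1 ≤ C ∧ ∀ (K : Type) [Field K] [Finite K],
        (Crit K (wdN g s) (List.ofFn m) →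
          1 - C * (Nat.card K : ℝ) ^ (-(1 / 4) : ℝ) ≤ PP (FuchsN g d s m) (PSL K)) ∧
        (¬ Crit K (wdN g s) (List.ofFn m) → PP (FuchsN g d s m) (PSL K) ≤ 1 - 1 / C)) ∧
      ∀ (ι : Type) (G : ι → Type) [∀ i, Group (G i)]
        (K : ι → Type) [∀ i, Field (K i)] [∀ i, Finite (K i)],
        (∀ i, 4 ≤ Nat.card (K i)) → (∀ i, Nonempty (G i ≃* PSL (K i))) →
        (∀ i j, i ≠ j → IsEmpty (G i ≃* G j)) →
        (Good (FuchsN g d s m) G ↔ {i | ¬ Crit (K i) (wdN g s) (List.ofFn m)}.Finite)) := by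
  refine ⟨fun g d s m hm hg => ⟨Pool.FG.h38.gapO g d s m hm hg, ?_⟩,
    fun g d s m hm hg1 hg2 => ⟨Pool.FG.h38.gapN g d s m hm hg1 hg2, ?_⟩⟩
  · intro ι G _ K _ _ hK hG hne
    exact (Pool.FG.helper28.final ι G K hK hG hne).1 g d s m hm hg
  · intro ι G _ K _ _ hK hG hne
    exact (Pool.FG.helper28.final ι G K hK hG hne).2 g d s m hm hg1 hg2

end Pool.Agent.Results.MP_65e34f_al.RankOneGoodPairs
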